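import Pool.Agent.helper86.OF.SpecM

/-! # Project of, module PAA: the partition for a template -/

open scoped BigOperators

namespace Pool.Agent.OF

noncomputable section

open Classical

theorem PAA_parity (c : ℕ → ℤ) (hc : ∀ p, c p = 0 ∨ c p = 1 ∨ c p = -1) (m : ℕ) :
    ∃ b : ℕ → Bool, ∑ p ∈ Finset.range m, c p * (if b p = true then 1 else -1) =
      (∑ p ∈ Finset.range m, |c p|) % 2 := by
  induction m with
  | zero => exact ⟨fun _ => true, by simp⟩
  | succ m ih =>
    obtain ⟨b, hb⟩ := ih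
    set S := ∑ p ∈ Finset.range m, |c p| with hS
    let bm : Bool := if S % 2 = 0 then decide (0 ≤ c m) else decide (c m ≤ 0)
    have hbm : bm = if S % 2 = 0 then decide (0 ≤ c m) else decide (c m ≤ 0) := rfl
    refine ⟨Function.update b m bm, ?_⟩
    rw [Finset.sum_range_succ, Finset.sum_range_succ, Function.update_self]
    have e1 : ∑ p ∈ Finset.range m,
        c p * (if Function.update b m bm p = true then (1:ℤ) else -1) = S % 2 := by
      rw [← hb]
      refine Finset.sum_congr rfl fun p hp => ?_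
      rw [Function.update_of_ne (by have := Finset.mem_range.1 hp; omega)]
    rw [e1, ← hS, hbm]
    rcases hc m with h | h | h <;> rcases Int.emod_two_eq_zero_or_one S with h2 | h2 <;>
      rw [h, h2] <;> norm_num <;> omega

/-- enumeration of a finite set -/
theorem PAA_enum {V : Type} [Fintype V] [Nonempty V] (X : Finset V) :
    ∃ (idx : V → ℕ) (g : ℕ → V), (∀ v ∈ X, idx v < X.card) ∧
      (∀ i < X.card, g i ∈ X ∧ idx (g i) = i) ∧ ∀ v ∈ X, g (idx v) = v := by
  refine ⟨fun v => if h : v ∈ X then (X.equivFin ⟨v, h⟩ : ℕ) else 0,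
    fun i => if h : i < X.card then (X.equivFin.symm ⟨i, h⟩ : V) else Classical.arbitrary V,
    ?_, ?_, ?_⟩
  · intro v hv
    simp only [hv, dif_pos]
    exact (X.equivFin ⟨v, hv⟩).2
  · intro i hi
    have h1 : ((X.equivFin.symm ⟨i, hi⟩ : X) : V) ∈ X := (X.equivFin.symm ⟨i, hi⟩).2
    simp only [hi, dif_pos]
    refine ⟨h1, ?_⟩
    rw [dif_pos h1]
    simp
  · intro v hv
    have h2 : (X.equivFin ⟨v, hv⟩ : ℕ) < X.card := (X.equivFin ⟨v, hv⟩).2
    simp only [hv, dif_pos]
    rw [dif_pos h2]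
    simp

theorem PAA_double {R : Type} [AddCommMonoid R] (f : ℕ → R) (m : ℕ) :
    ∑ i ∈ Finset.range (2 * m), f i = ∑ p ∈ Finset.range m, (f (2 * p) + f (2 * p + 1)) := by
  induction m with
  | zero => simp
  | succ m ih =>
    rw [show 2 * (m + 1) = 2 * m + 1 + 1 by ring, Finset.sum_range_succ, Finset.sum_range_succ,
      ih, Finset.sum_range_succ, add_assoc]

section
variable {V : Type}

/-- membership in `A` -/
def PAA_in (X : Finset V) (idx : V → ℕ) (b : ℕ → Bool) (w : V → Bool) (v : V) : Prop :=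
  if v ∈ X then (idx v = 2 * (X.card / 2) ∨ b (idx v / 2) = decide (idx v % 2 = 0))
  else w v = true

theorem PAA_sum {R : Type} [Ring R] (X : Finset V) (idx : V → ℕ) (g : ℕ → V)
    (h1 : ∀ v ∈ X, idx v < X.card) (h2 : ∀ i < X.card, g i ∈ X ∧ idx (g i) = i)
    (h3 : ∀ v ∈ X, g (idx v) = v) (b : ℕ → Bool) (w : V → Bool) (F : V → R) :
    ∑ v ∈ X, F v * (if PAA_in X idx b w v then 1 else -1) =
      ∑ p ∈ Finset.range (X.card / 2), (F (g (2 * p)) - F (g (2 * p + 1))) *
        (if b p = true then 1 else -1) +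
      (if X.card % 2 = 1 then F (g (2 * (X.card / 2))) else 0) := by
  have e1 : ∑ v ∈ X, F v * (if PAA_in X idx b w v then 1 else -1) =
      ∑ i ∈ Finset.range X.card, F (g i) * (if PAA_in X idx b w (g i) then 1 else -1) := by
    refine Finset.sum_nbij' idx g ?_ ?_ ?_ ?_ ?_
    · intro v hv
      exact Finset.mem_range.2 (h1 v hv)
    · intro i hi
      exact (h2 i (Finset.mem_range.1 hi)).1
    · intro v hv
      exact h3 v hv
    · intro i hi
      exact (h2 i (Finset.mem_range.1 hi)).2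
    · intro v hv
      rw [h3 v hv]
  have e2 : ∀ p < X.card / 2, F (g (2 * p)) * (if PAA_in X idx b w (g (2 * p)) then 1 else -1) +
      F (g (2 * p + 1)) * (if PAA_in X idx b w (g (2 * p + 1)) then 1 else -1) =
      (F (g (2 * p)) - F (g (2 * p + 1))) * (if b p = true then 1 else -1) := by
    intro p hp
    obtain ⟨k1, k2⟩ := h2 (2 * p) (by omega)
    obtain ⟨k3, k4⟩ := h2 (2 * p + 1) (by omega)
    have a1 : PAA_in X idx b w (g (2 * p)) ↔ b p = true := by
      unfold PAA_in
      rw [if_pos k1, k2, show 2 * p / 2 = p by omega, show 2 * p % 2 = 0 by omega]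
      constructor
      · rintro (h | h)
        · omega
        · simpa using h
      · intro h
        right
        simpa using h
    have a2 : PAA_in X idx b w (g (2 * p + 1)) ↔ ¬ b p = true := by
      unfold PAA_in
      rw [if_pos k3, k4, show (2 * p + 1) / 2 = p by omega, show (2 * p + 1) % 2 = 1 by omega]
      constructor
      · rintro (h | h)
        · omega
        · simpa using h
      · intro h
        right
        simpa using h
    by_cases hb : b p = true
    · rw [if_pos (a1.2 hb), if_neg (fun h => (a2.1 h) hb), if_pos hb]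
      noncomm_ring
    · rw [if_neg (fun h => hb (a1.1 h)), if_pos (a2.2 hb), if_neg hb]
      noncomm_ring
  rw [e1]
  rcases Nat.mod_two_eq_zero_or_one X.card with h | h
  · rw [if_neg (by omega), add_zero]
    have e3 : X.card = 2 * (X.card / 2) := by omega
    rw [show Finset.range X.card = Finset.range (2 * (X.card / 2)) by rw [← e3], PAA_double]
    refine Finset.sum_congr rfl fun p hp => ?_
    exact e2 p (Finset.mem_range.1 hp)
  · rw [if_pos h]
    have e3 : X.card = 2 * (X.card / 2) + 1 := by omega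
    rw [show Finset.range X.card = Finset.range (2 * (X.card / 2) + 1) by rw [← e3],
      Finset.sum_range_succ, PAA_double]
    congr 1
    · refine Finset.sum_congr rfl fun p hp => ?_
      exact e2 p (Finset.mem_range.1 hp)
    · obtain ⟨k1, k2⟩ := h2 (2 * (X.card / 2)) (by omega)
      have a1 : PAA_in X idx b w (g (2 * (X.card / 2))) := by
        unfold PAA_in
        rw [if_pos k1]
        left
        exact k2
      rw [if_pos a1, mul_one]

/-- the difference of two cardinalities as a sum of signs -/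
theorem PAA_diff (S : Finset V) (P : V → Prop) :
    ((S.filter P).card : ℤ) - (S.filter fun v => ¬ P v).card =
      ∑ v ∈ S, (if P v then (1 : ℤ) else -1) := by
  rw [Finset.card_filter, Finset.card_filter]
  push_cast
  rw [← Finset.sum_sub_distrib]
  refine Finset.sum_congr rfl fun v _ => ?_
  by_cases h : P v <;> simp [h]

end

/-- the number of sign vectors agreeing with a given one on `K` -/
theorem PAA_agree (ι : Type) [Fintype ι] [DecidableEq ι] (K : Finset ι) (σ0 : ι → Bool) :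
    (Finset.univ.filter fun σ : ι → Bool => ∀ i ∈ K, σ i = σ0 i).card * 2 ^ K.card =
      2 ^ Fintype.card ι := by
  have e1 : (Finset.univ.filter fun σ : ι → Bool => ∀ i ∈ K, σ i = σ0 i) =
      Fintype.piFinset fun i => if i ∈ K then {σ0 i} else Finset.univ := by
    ext σ
    rw [Finset.mem_filter, Fintype.mem_piFinset]
    constructor
    · rintro ⟨-, h⟩ i
      by_cases hi : i ∈ K
      · rw [if_pos hi, Finset.mem_singleton]
        exact h i hi
      · rw [if_neg hi]
        exact Finset.mem_univ _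
    · intro h
      refine ⟨Finset.mem_univ _, fun i hi => ?_⟩
      have := h i
      rw [if_pos hi, Finset.mem_singleton] at this
      exact this
  rw [e1, Fintype.card_piFinset]
  have e2 : (2 : ℕ) ^ K.card = ∏ i, (if i ∈ K then 2 else 1) := by
    rw [Finset.prod_ite_mem, Finset.univ_inter, Finset.prod_const]
  rw [e2, ← Finset.prod_mul_distrib]
  have e3 : ∀ i : ι, (if i ∈ K then ({σ0 i} : Finset Bool) else Finset.univ).card *
      (if i ∈ K then 2 else 1) = 2 := by
    intro i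
    by_cases hi : i ∈ K
    · simp [hi]
    · simp [hi]
  rw [Finset.prod_congr rfl fun i _ => e3 i, Finset.prod_const, Finset.card_univ]

/-- the signs of the pairs -/
def PAA_b (V : Type) (m : ℕ) (σ : Fin m ⊕ V → Bool) (p : ℕ) : Bool :=
  if h : p < m then σ (Sum.inl ⟨p, h⟩) else true

/-- the set `A` -/
def PAA_A {V : Type} [Fintype V] (X : Finset V) (idx : V → ℕ)
    (σ : Fin (X.card / 2) ⊕ V → Bool) : Finset V :=
  Finset.univ.filter (PAA_in X idx (PAA_b V (X.card / 2) σ) fun v => σ (Sum.inr v))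

/-- the colour with exceptional set `H` and matching `κ` is good -/
def PAA_good {V : Type} [Fintype V] (X : Finset V) (A H : Finset V) (κ : V → V) : Prop :=
  (∀ v, κ v ≠ v → ¬ (v ∈ A ↔ κ v ∈ A)) ∧ (H ∩ A).card = (H \ A).card + X.card % 2

section
variable {V : Type} [Fintype V] (X : Finset V) (idx : V → ℕ) (g : ℕ → V)

theorem PAA_card_eq (S : Finset V) (σ : Fin (X.card / 2) ⊕ V → Bool) :
    ((S ∩ PAA_A X idx σ).card : ℤ) - (S \ PAA_A X idx σ).card =
      ∑ v ∈ S, (if PAA_in X idx (PAA_b V (X.card / 2) σ) (fun v => σ (Sum.inr v)) v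
        then (1 : ℤ) else -1) := by
  rw [← PAA_diff]
  have e1 : S ∩ PAA_A X idx σ =
      S.filter (PAA_in X idx (PAA_b V (X.card / 2) σ) fun v => σ (Sum.inr v)) := by
    ext v
    simp [PAA_A]
  have e2 : S \ PAA_A X idx σ =
      S.filter fun v => ¬ (PAA_in X idx (PAA_b V (X.card / 2) σ) (fun v => σ (Sum.inr v)) v) := by
    ext v
    simp [PAA_A]
  rw [e1, e2]

theorem PAA_half (h1 : ∀ v ∈ X, idx v < X.card) (h2 : ∀ i < X.card, g i ∈ X ∧ idx (g i) = i)
    (h3 : ∀ v ∈ X, g (idx v) = v) (σ : Fin (X.card / 2) ⊕ V → Bool) :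
    (X ∩ PAA_A X idx σ).card = (X \ PAA_A X idx σ).card + X.card % 2 := by
  have e1 := PAA_card_eq X idx X σ
  have e2 := PAA_sum X idx g h1 h2 h3 (PAA_b V (X.card / 2) σ) (fun v => σ (Sum.inr v))
    (fun _ => (1 : ℤ))
  simp only [one_mul, sub_self, zero_mul, Finset.sum_const_zero, zero_add] at e2
  rw [e2] at e1
  rcases Nat.mod_two_eq_zero_or_one X.card with h | h
  · rw [if_neg (by omega)] at e1
    omega
  · rw [if_pos h] at e1
    omega

/-- a good assignment exists for one colour -/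
theorem PAA_exists (h1 : ∀ v ∈ X, idx v < X.card)
    (h2 : ∀ i < X.card, g i ∈ X ∧ idx (g i) = i) (h3 : ∀ v ∈ X, g (idx v) = v)
    (H : Finset V) (κ : V → V) (hH : H ⊆ X) (hpar : H.card % 2 = X.card % 2)
    (k1 : ∀ v, κ (κ v) = v) (k2 : ∀ v ∈ X, κ v ≠ v → v ∈ H ∧ κ v ∉ X) :
    ∃ σ0 : Fin (X.card / 2) ⊕ V → Bool, PAA_good X (PAA_A X idx σ0) H κ := by
  let F : V → ℤ := fun v => if v ∈ H then 1 else 0
  have hF : ∀ v, F v = 0 ∨ F v = 1 := by
    intro v
    by_cases h : v ∈ H <;> simp [F, h]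
  let c : ℕ → ℤ := fun p => F (g (2 * p)) - F (g (2 * p + 1))
  have hc : ∀ p, c p = 0 ∨ c p = 1 ∨ c p = -1 := by
    intro p
    rcases hF (g (2 * p)) with h | h <;> rcases hF (g (2 * p + 1)) with h' | h' <;>
      simp [c, h, h']
  obtain ⟨b0, hb0⟩ := PAA_parity c hc (X.card / 2)
  let enc : V ≃ Fin (Fintype.card V) := Fintype.equivFin V
  let σ0 : Fin (X.card / 2) ⊕ V → Bool := Sum.elim (fun p => b0 p) fun v =>
    if κ v ∈ X then ! decide (PAA_in X idx (fun p => if p < (X.card / 2) then b0 p else true)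
      (fun _ => true) (κ v)) else decide (enc v < enc (κ v))
  have hbb : PAA_b V (X.card / 2) σ0 = fun p => if p < (X.card / 2) then b0 p else true := by
    funext p
    unfold PAA_b
    by_cases hp : p < (X.card / 2)
    · rw [dif_pos hp, if_pos hp]
      rfl
    · rw [dif_neg hp, if_neg hp]
  have hin : ∀ v, v ∈ PAA_A X idx σ0 ↔ PAA_in X idx (fun p => if p < (X.card / 2) then b0 p else true)
      (fun v => σ0 (Sum.inr v)) v := by
    intro v
    unfold PAA_A
    rw [Finset.mem_filter, hbb]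
    simp
  have hinX : ∀ v ∈ X, (v ∈ PAA_A X idx σ0 ↔
      PAA_in X idx (fun p => if p < (X.card / 2) then b0 p else true) (fun _ => true) v) := by
    intro v hv
    rw [hin v]
    unfold PAA_in
    rw [if_pos hv, if_pos hv]
  have hout : ∀ v, v ∉ X → κ v ∈ X → (v ∈ PAA_A X idx σ0 ↔ ¬ κ v ∈ PAA_A X idx σ0) := by
    intro v hv hk
    rw [hinX _ hk, hin v]
    conv_lhs => unfold PAA_in
    rw [if_neg hv]
    simp only [σ0, Sum.elim_inr, if_pos hk]
    simp
  have hout2 : ∀ v, v ∉ X → κ v ∉ X → (v ∈ PAA_A X idx σ0 ↔ enc v < enc (κ v)) := by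
    intro v hv hk
    rw [hin v]
    unfold PAA_in
    rw [if_neg hv]
    simp only [σ0, Sum.elim_inr, if_neg hk]
    simp
  refine ⟨σ0, ?_, ?_⟩
  · intro v hv
    by_cases hvX : v ∈ X
    · have hk := (k2 v hvX hv).2
      have := hout (κ v) hk (by rw [k1]; exact hvX)
      rw [k1] at this
      tauto
    · by_cases hk : κ v ∈ X
      · have := hout v hvX hk
        tauto
      · have e1 := hout2 v hvX hk
        have e2 := hout2 (κ v) hk (by rw [k1]; exact hvX)
        rw [k1] at e2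
        rw [e1, e2]
        have e3 : enc v ≠ enc (κ v) := fun h => hv (enc.injective h).symm
        rcases lt_or_gt_of_ne e3 with h | h
        · intro h'
          exact absurd (h'.1 h) (not_lt.2 h.le)
        · intro h'
          exact absurd (h'.2 h) (not_lt.2 h.le)
  · have e1 := PAA_card_eq X idx H σ0
    have e2 : ∑ v ∈ H, (if PAA_in X idx (PAA_b V (X.card / 2) σ0) (fun v => σ0 (Sum.inr v)) v
        then (1 : ℤ) else -1) = ∑ v ∈ X, F v *
        (if PAA_in X idx (PAA_b V (X.card / 2) σ0) (fun v => σ0 (Sum.inr v)) v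
        then (1 : ℤ) else -1) := by
      rw [← Finset.inter_eq_right.2 hH, ← Finset.sum_ite_mem]
      refine Finset.sum_congr rfl fun v _ => ?_
      by_cases h : v ∈ H <;> simp [F, h]
    rw [e2, PAA_sum X idx g h1 h2 h3] at e1
    have e3 : ∑ p ∈ Finset.range (X.card / 2), (F (g (2 * p)) - F (g (2 * p + 1))) *
        (if PAA_b V (X.card / 2) σ0 p = true then (1:ℤ) else -1) =
        ∑ p ∈ Finset.range (X.card / 2), c p * (if b0 p = true then 1 else -1) := by
      refine Finset.sum_congr rfl fun p hp => ?_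
      rw [hbb]
      beta_reduce
      rw [if_pos (Finset.mem_range.1 hp)]
    rw [e3, hb0] at e1
    -- parity
    have e4 : (H.card : ℤ) = ∑ v ∈ X, F v := by
      rw [Finset.card_eq_sum_ones]
      push_cast
      rw [← Finset.inter_eq_right.2 hH, ← Finset.sum_ite_mem]
    have e5 : ∑ v ∈ X, F v = ∑ i ∈ Finset.range X.card, F (g i) := by
      refine Finset.sum_nbij' idx g ?_ ?_ ?_ ?_ ?_
      · intro v hv
        exact Finset.mem_range.2 (h1 v hv)
      · intro i hi
        exact (h2 i (Finset.mem_range.1 hi)).1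
      · intro v hv
        exact h3 v hv
      · intro i hi
        exact (h2 i (Finset.mem_range.1 hi)).2
      · intro v hv
        rw [h3 v hv]
    have e6 : (2 : ℤ) ∣ ∑ p ∈ Finset.range (X.card / 2), (F (g (2 * p)) + F (g (2 * p + 1))) -
        ∑ p ∈ Finset.range (X.card / 2), |c p| := by
      rw [← Finset.sum_sub_distrib]
      refine Finset.dvd_sum fun p _ => ?_
      simp only [c]
      rcases hF (g (2 * p)) with h | h <;> rcases hF (g (2 * p + 1)) with h' | h' <;>
        rw [h, h'] <;> norm_num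
    rcases Nat.mod_two_eq_zero_or_one X.card with h | h
    · have e7 : X.card = 2 * (X.card / 2) := by omega
      rw [e5, show Finset.range X.card = Finset.range (2 * (X.card / 2)) by rw [← e7], PAA_double] at e4
      rw [if_neg (by omega)] at e1
      omega
    · have e7 : X.card = 2 * (X.card / 2) + 1 := by omega
      rw [e5, show Finset.range X.card = Finset.range (2 * (X.card / 2) + 1) by rw [← e7],
        Finset.sum_range_succ, PAA_double] at e4
      rw [if_pos h] at e1
      rcases hF (g (2 * (X.card / 2))) with h' | h' <;> rw [h'] at e1 e4 <;> omega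

/-- goodness only depends on few signs -/
theorem PAA_stable (H : Finset V) (κ : V → V) (hH : H ⊆ X)
    (k2 : ∀ v ∈ X, κ v ≠ v → v ∈ H ∧ κ v ∉ X) (k1 : ∀ v, κ (κ v) = v)
    (σ σ0 : Fin (X.card / 2) ⊕ V → Bool)
    (ha : ∀ p : Fin (X.card / 2), (∃ x ∈ H, idx x / 2 = p) → σ (Sum.inl p) = σ0 (Sum.inl p))
    (hb : ∀ v, κ v ≠ v → σ (Sum.inr v) = σ0 (Sum.inr v))
    (hg : PAA_good X (PAA_A X idx σ0) H κ) : PAA_good X (PAA_A X idx σ) H κ := by
  have e1 : ∀ v ∈ H, (v ∈ PAA_A X idx σ ↔ v ∈ PAA_A X idx σ0) := by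
    intro v hv
    unfold PAA_A
    rw [Finset.mem_filter, Finset.mem_filter]
    unfold PAA_in
    rw [if_pos (hH hv), if_pos (hH hv)]
    have e2 : PAA_b V (X.card / 2) σ (idx v / 2) = PAA_b V (X.card / 2) σ0 (idx v / 2) := by
      unfold PAA_b
      by_cases h : idx v / 2 < X.card / 2
      · rw [dif_pos h, dif_pos h]
        exact ha ⟨_, h⟩ ⟨v, hv, rfl⟩
      · rw [dif_neg h, dif_neg h]
    rw [e2]
  have e2 : ∀ v, κ v ≠ v → (v ∈ PAA_A X idx σ ↔ v ∈ PAA_A X idx σ0) := by
    intro v hv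
    by_cases hvX : v ∈ X
    · exact e1 v (k2 v hvX hv).1
    · unfold PAA_A
      rw [Finset.mem_filter, Finset.mem_filter]
      unfold PAA_in
      rw [if_neg hvX, if_neg hvX]
      beta_reduce
      rw [hb v hv]
  have e3 : H ∩ PAA_A X idx σ = H ∩ PAA_A X idx σ0 := by
    ext v
    rw [Finset.mem_inter, Finset.mem_inter]
    constructor
    · rintro ⟨a, b⟩
      exact ⟨a, (e1 v a).1 b⟩
    · rintro ⟨a, b⟩
      exact ⟨a, (e1 v a).2 b⟩
  have e4 : H \ PAA_A X idx σ = H \ PAA_A X idx σ0 := by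
    ext v
    rw [Finset.mem_sdiff, Finset.mem_sdiff]
    constructor
    · rintro ⟨a, b⟩
      exact ⟨a, fun h => b ((e1 v a).2 h)⟩
    · rintro ⟨a, b⟩
      exact ⟨a, fun h => b ((e1 v a).1 h)⟩
  refine ⟨fun v hv => ?_, ?_⟩
  · rw [e2 v hv, e2 (κ v) (by rw [k1]; exact fun h => hv h.symm)]
    exact hg.1 v hv
  · rw [e3, e4]
    exact hg.2

/-- the number of good assignments for one colour -/
theorem PAA_count (h1 : ∀ v ∈ X, idx v < X.card)
    (h2 : ∀ i < X.card, g i ∈ X ∧ idx (g i) = i) (h3 : ∀ v ∈ X, g (idx v) = v)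
    (H : Finset V) (κ : V → V) (hH : H ⊆ X) (hpar : H.card % 2 = X.card % 2)
    (k1 : ∀ v, κ (κ v) = v) (k2 : ∀ v ∈ X, κ v ≠ v → v ∈ H ∧ κ v ∉ X) (U : ℕ)
    (hU : H.card ≤ U) (hU2 : (Finset.univ.filter fun v => κ v ≠ v).card ≤ 4 * U) :
    2 ^ Fintype.card (Fin (X.card / 2) ⊕ V) ≤
      (Finset.univ.filter fun σ : Fin (X.card / 2) ⊕ V → Bool =>
        PAA_good X (PAA_A X idx σ) H κ).card * 2 ^ (5 * U) := by
  obtain ⟨σ0, hσ0⟩ := PAA_exists X idx g h1 h2 h3 H κ hH hpar k1 k2
  set K1 : Finset (Fin (X.card / 2)) := Finset.univ.filter fun p => ∃ x ∈ H, idx x / 2 = p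
    with hK1
  set K2 : Finset V := Finset.univ.filter fun v => κ v ≠ v with hK2
  have c1 : K1.card ≤ U := by
    refine le_trans ?_ hU
    have : K1.card ≤ (H.image fun x => idx x / 2).card := by
      refine Finset.card_le_card_of_injOn (fun p => (p : ℕ)) ?_ ?_
      · intro p hp
        rw [hK1, Finset.mem_coe, Finset.mem_filter] at hp
        obtain ⟨-, x, hx, hxp⟩ := hp
        exact Finset.mem_coe.2 (Finset.mem_image.2 ⟨x, hx, hxp⟩)
      · intro p _ q _ h
        exact Fin.ext h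
    exact this.trans Finset.card_image_le
  have c2 : (K1.disjSum K2).card ≤ 5 * U := by
    rw [Finset.card_disjSum]
    omega
  have c3 := PAA_agree (Fin (X.card / 2) ⊕ V) (K1.disjSum K2) σ0
  rw [← c3]
  refine Nat.mul_le_mul ?_ (Nat.pow_le_pow_right (by norm_num) c2)
  refine Finset.card_le_card ?_
  intro σ hσ'
  have hσ := Finset.mem_filter.1 hσ'
  refine Finset.mem_filter.2 ⟨Finset.mem_univ _, PAA_stable X idx H κ hH k2 k1 σ σ0 ?_ ?_ hσ0⟩
  · intro p hp
    refine hσ.2 _ ?_
    rw [Finset.inl_mem_disjSum, hK1, Finset.mem_filter]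
    exact ⟨Finset.mem_univ _, hp⟩
  · intro v hv
    refine hσ.2 _ ?_
    rw [Finset.inr_mem_disjSum, hK2, Finset.mem_filter]
    exact ⟨Finset.mem_univ _, hv⟩

/-- the deviation of one vertex as a sum of independent signs -/
theorem PAA_dev (h1 : ∀ v ∈ X, idx v < X.card)
    (h2 : ∀ i < X.card, g i ∈ X ∧ idx (g i) = i) (h3 : ∀ v ∈ X, g (idx v) = v)
    (G : SimpleGraph V) (v : V) (σ : Fin (X.card / 2) ⊕ V → Bool) (a : Fin (X.card / 2) ⊕ V → ℝ)
    (ha : a = Sum.elim (fun p : Fin (X.card / 2) =>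
      (if G.Adj v (g (2 * p)) then (1:ℝ) else 0) - (if G.Adj v (g (2 * p + 1)) then 1 else 0))
      fun _ => 0) :
    |(dgs G (X ∩ PAA_A X idx σ) v : ℝ) - dgs G (X \ PAA_A X idx σ) v| ≤
      |∑ i, (if σ i then a i else - a i)| + 1 := by
  let F : V → ℝ := fun x => if G.Adj v x then 1 else 0
  have e1 : (dgs G (X ∩ PAA_A X idx σ) v : ℝ) - dgs G (X \ PAA_A X idx σ) v =
      ∑ x ∈ X, F x * (if PAA_in X idx (PAA_b V (X.card / 2) σ) (fun v => σ (Sum.inr v)) x
        then 1 else -1) := by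
    have f1 : (dgs G (X ∩ PAA_A X idx σ) v : ℝ) = ∑ x ∈ X, (if x ∈ PAA_A X idx σ then F x else 0) := by
      rw [Finset.sum_ite_mem]
      unfold dgs
      rw [Finset.card_filter]
      push_cast
      rfl
    have f2 : (dgs G (X \ PAA_A X idx σ) v : ℝ) =
        ∑ x ∈ X, (if x ∈ PAA_A X idx σ then 0 else F x) := by
      unfold dgs
      rw [Finset.card_filter, Finset.sdiff_eq_filter, Finset.sum_filter]
      push_cast
      refine Finset.sum_congr rfl fun x _ => ?_
      by_cases h : x ∈ PAA_A X idx σ <;> simp [h, F]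
    rw [f1, f2, ← Finset.sum_sub_distrib]
    refine Finset.sum_congr rfl fun x _ => ?_
    have f3 : x ∈ PAA_A X idx σ ↔
        PAA_in X idx (PAA_b V (X.card / 2) σ) (fun v => σ (Sum.inr v)) x := by
      unfold PAA_A
      simp
    by_cases h : x ∈ PAA_A X idx σ
    · rw [if_pos h, if_pos h, if_pos (f3.1 h)]
      ring
    · rw [if_neg h, if_neg h, if_neg (fun h' => h (f3.2 h'))]
      ring
  rw [e1, PAA_sum X idx g h1 h2 h3]
  have e2 : ∑ i, (if σ i then a i else - a i) =
      ∑ p ∈ Finset.range (X.card / 2), (F (g (2 * p)) - F (g (2 * p + 1))) *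
        (if PAA_b V (X.card / 2) σ p = true then 1 else -1) := by
    rw [Fintype.sum_sum_type, ha]
    simp only [Sum.elim_inl, Sum.elim_inr, neg_zero, ite_self, Finset.sum_const_zero, add_zero]
    rw [← Fin.sum_univ_eq_sum_range (fun p => (F (g (2 * p)) - F (g (2 * p + 1))) *
        (if PAA_b V (X.card / 2) σ p = true then (1:ℝ) else -1))]
    refine Finset.sum_congr rfl fun p _ => ?_
    have f4 : PAA_b V (X.card / 2) σ p = σ (Sum.inl p) := by
      unfold PAA_b
      rw [dif_pos p.2]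
    rw [f4]
    by_cases h : σ (Sum.inl p) = true
    · rw [if_pos h, if_pos h, mul_one]
    · rw [if_neg h, if_neg h]
      ring
  rw [← e2]
  refine (abs_add_le _ _).trans (add_le_add le_rfl ?_)
  by_cases h : X.card % 2 = 1
  · rw [if_pos h]
    simp only [F]
    by_cases h' : G.Adj v (g (2 * (X.card / 2))) <;> simp [h']
  · rw [if_neg h]
    simp

end

/-- the numerical condition -/
theorem PAA_num (η c : ℝ) (hη : 0 < η) (hc : 0 < c) : ∃ N0 : ℕ, ∀ N : ℕ, N0 ≤ N →
    1 ≤ N ∧ 1 ≤ η * N / 2 ∧ (N : ℝ) * (2 * Real.exp (-((η * N / 2) ^ 2 / (2 * N)))) ≤ c := by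
  have h1 : Filter.Tendsto (fun N : ℕ => (N : ℝ) * Real.exp (-(η ^ 2 / 8) * N)) Filter.atTop
      (nhds 0) := by
    have h2 := Real.tendsto_pow_mul_exp_neg_atTop_nhds_zero 1
    have h3 : Filter.Tendsto (fun N : ℕ => (η ^ 2 / 8) * (N : ℝ)) Filter.atTop Filter.atTop :=
      Filter.Tendsto.const_mul_atTop (by positivity) tendsto_natCast_atTop_atTop
    have h4 := (h2.comp h3).const_mul (8 / η ^ 2)
    rw [mul_zero] at h4
    refine h4.congr fun N => ?_
    simp only [Function.comp, pow_one]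
    rw [show -(η ^ 2 / 8) * (N:ℝ) = -(η ^ 2 / 8 * N) by ring]
    have : η ^ 2 ≠ 0 := by positivity
    field_simp
  have h2 : ∀ᶠ N : ℕ in Filter.atTop, (N : ℝ) * Real.exp (-(η ^ 2 / 8) * N) ≤ c / 2 :=
    h1.eventually (ge_mem_nhds (by positivity))
  have h3 : ∀ᶠ N : ℕ in Filter.atTop, 2 / η ≤ (N : ℝ) :=
    tendsto_natCast_atTop_atTop.eventually_ge_atTop _
  obtain ⟨N0, hN0⟩ := Filter.eventually_atTop.1 (h2.and (h3.and (Filter.eventually_ge_atTop 1)))
  refine ⟨N0, fun N hN => ?_⟩
  obtain ⟨a1, a2, a3⟩ := hN0 N hN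
  refine ⟨a3, ?_, ?_⟩
  · rw [div_le_iff₀ hη] at a2
    linarith
  · have hNpos : (0:ℝ) < N := by exact_mod_cast a3
    rw [show -((η * N / 2) ^ 2 / (2 * N)) = -(η ^ 2 / 8) * (N:ℝ) by field_simp; ring]
    linarith

theorem PAA_hoe (hHOE : HOE_stmt) {V : Type} [Fintype V] (X : Finset V) (g : ℕ → V)
    (G : SimpleGraph V) (v : V) (η : ℝ) (N : ℕ) (hη : 0 < η) (hN : 1 ≤ N) (hXN : X.card ≤ N)
    (a : Fin (X.card / 2) ⊕ V → ℝ)
    (ha : a = Sum.elim (fun p : Fin (X.card / 2) =>
      (if G.Adj v (g (2 * p)) then (1:ℝ) else 0) - (if G.Adj v (g (2 * p + 1)) then 1 else 0))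
      fun _ => 0) :
    (((Finset.univ.filter fun σ : Fin (X.card / 2) ⊕ V → Bool =>
      η * N / 2 < |∑ i, (if σ i then a i else - a i)|).card : ℕ) : ℝ) ≤
      2 * Real.exp (-((η * N / 2) ^ 2 / (2 * N))) *
        2 ^ Fintype.card (Fin (X.card / 2) ⊕ V) := by
  have hNpos : (0:ℝ) < N := by exact_mod_cast hN
  have h0 : ∑ i, (a i) ^ 2 ≤ (N : ℝ) := by
    rw [ha, Fintype.sum_sum_type]
    simp only [Sum.elim_inl, Sum.elim_inr]
    have e1 : ∀ p : Fin (X.card / 2), ((if G.Adj v (g (2 * p)) then (1:ℝ) else 0) -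
        (if G.Adj v (g (2 * p + 1)) then 1 else 0)) ^ 2 ≤ 1 := by
      intro p
      by_cases q1 : G.Adj v (g (2 * p)) <;> by_cases q2 : G.Adj v (g (2 * p + 1)) <;>
        simp [q1, q2]
    calc _ ≤ ∑ p : Fin (X.card / 2), (1:ℝ) + ∑ v : V, (0:ℝ) ^ 2 :=
          add_le_add (Finset.sum_le_sum fun p _ => e1 p) le_rfl
      _ = ((X.card / 2 : ℕ) : ℝ) := by simp
      _ ≤ N := by exact_mod_cast (by omega : X.card / 2 ≤ N)
  have h1 := hHOE (Fin (X.card / 2) ⊕ V) a (η * N / 2) N (by positivity) hNpos h0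
  refine le_trans (le_of_eq ?_) h1
  congr
  all_goals (funext x y; exact Subsingleton.elim _ _)

theorem PAA (hHOE : HOE_stmt) : PAA_stmt := by
  intro U
  set c0 : ℝ := ((2:ℝ) ^ (5 * U))⁻¹ with hc0
  have hc0p : 0 < c0 := by rw [hc0]; positivity
  refine ⟨c0 / 4, by positivity, fun η hη => ?_⟩
  obtain ⟨N0, hN0⟩ := PAA_num η (c0 / 4) hη (by positivity)
  refine ⟨N0, ?_⟩
  intro V _ G D X H κm hN hD1 hD2 hH hκ
  set N := Fintype.card V with hNdef
  obtain ⟨n1, n2, n3⟩ := hN0 N hN
  have hNpos : (0:ℝ) < N := by exact_mod_cast n1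
  have hDpos : (0:ℝ) < D := lt_of_lt_of_le (by positivity) hD1
  have : Nonempty V := Fintype.card_pos_iff.1 (by omega)
  obtain ⟨idx, g, h1, h2, h3⟩ := PAA_enum X
  let Ω := Fin (X.card / 2) ⊕ V → Bool
  set T : ℝ := 2 ^ Fintype.card (Fin (X.card / 2) ⊕ V) with hT
  have hTpos : 0 < T := by rw [hT]; positivity
  let a : V → Fin (X.card / 2) ⊕ V → ℝ := fun v => Sum.elim (fun p : Fin (X.card / 2) =>
      (if G.Adj v (g (2 * p)) then (1:ℝ) else 0) - (if G.Adj v (g (2 * p + 1)) then 1 else 0))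
      fun _ => 0
  let Bv : V → Finset Ω := fun v => Finset.univ.filter fun σ : Ω =>
    η * N / 2 < |∑ i, (if σ i then a v i else - a v i)|
  have hBv : ∀ v, ((Bv v).card : ℝ) ≤ 2 * Real.exp (-((η * N / 2) ^ 2 / (2 * N))) * T := by
    intro v
    exact PAA_hoe hHOE X g G v η N hη n1 (Finset.card_le_univ X) (a v) rfl
  let B : Finset Ω := Finset.univ.biUnion Bv
  have hB : (B.card : ℝ) ≤ c0 / 4 * T := by
    calc (B.card : ℝ) ≤ ∑ v : V, ((Bv v).card : ℝ) := by
          exact_mod_cast Finset.card_biUnion_le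
      _ ≤ ∑ _v : V, 2 * Real.exp (-((η * N / 2) ^ 2 / (2 * N))) * T :=
          Finset.sum_le_sum fun v _ => hBv v
      _ = ((N : ℝ) * (2 * Real.exp (-((η * N / 2) ^ 2 / (2 * N))))) * T := by
          rw [Finset.sum_const, Finset.card_univ, nsmul_eq_mul]
          ring
      _ ≤ c0 / 4 * T := mul_le_mul_of_nonneg_right n3 hTpos.le
  let gd : ℕ → Ω → Prop := fun j σ => PAA_good X (PAA_A X idx σ) (H j) (κm j)
  have hgd : ∀ j < D, c0 * T ≤ ((Finset.univ.filter fun σ : Ω => gd j σ).card : ℝ) := by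
    intro j hj
    obtain ⟨p1, p2, p3⟩ := hH j hj
    obtain ⟨q1, q2, q3⟩ := hκ j hj
    have := PAA_count X idx g h1 h2 h3 (H j) (κm j) p1 p3 q1 q2 U p2 q3
    have h5 : T ≤ ((Finset.univ.filter fun σ : Ω => gd j σ).card : ℝ) * 2 ^ (5 * U) := by
      rw [hT]
      exact_mod_cast this
    rw [hc0, inv_mul_le_iff₀ (by positivity)]
    linarith
  -- averaging
  have hdouble : ∑ σ : Ω, (((Finset.range D).filter fun j => gd j σ).card : ℝ) =
      ∑ j ∈ Finset.range D, ((Finset.univ.filter fun σ : Ω => gd j σ).card : ℝ) := by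
    have : ∑ σ : Ω, ((Finset.range D).filter fun j => gd j σ).card =
        ∑ j ∈ Finset.range D, (Finset.univ.filter fun σ : Ω => gd j σ).card := by
      simp only [Finset.card_filter]
      rw [Finset.sum_comm]
    exact_mod_cast this
  have hlow : (D : ℝ) * (c0 * T) ≤
      ∑ σ : Ω, (((Finset.range D).filter fun j => gd j σ).card : ℝ) := by
    rw [hdouble]
    calc (D : ℝ) * (c0 * T) = ∑ _j ∈ Finset.range D, c0 * T := by
          rw [Finset.sum_const, Finset.card_range, nsmul_eq_mul]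
      _ ≤ _ := Finset.sum_le_sum fun j hj => hgd j (Finset.mem_range.1 hj)
  have hcardΩ : ((Finset.univ : Finset Ω).card : ℝ) = T := by
    rw [Finset.card_univ, Fintype.card_fun, Fintype.card_bool, hT]
    push_cast
    rfl
  have hex : ∃ σ : Ω, σ ∉ B ∧ c0 / 2 * D ≤ (((Finset.range D).filter fun j => gd j σ).card : ℝ) := by
    by_contra hcon
    push Not at hcon
    have hup : ∑ σ : Ω, (((Finset.range D).filter fun j => gd j σ).card : ℝ) ≤
        ∑ σ : Ω, ((if σ ∈ B then (D:ℝ) else 0) + c0 / 2 * D) := by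
      refine Finset.sum_le_sum fun σ _ => ?_
      by_cases hσ : σ ∈ B
      · rw [if_pos hσ]
        have : ((Finset.range D).filter fun j => gd j σ).card ≤ D :=
          (Finset.card_filter_le _ _).trans_eq (Finset.card_range D)
        have h6 : (((Finset.range D).filter fun j => gd j σ).card : ℝ) ≤ D := by
          exact_mod_cast this
        have : 0 ≤ c0 / 2 * D := by positivity
        linarith
      · rw [if_neg hσ]
        have := hcon σ hσ
        linarith
    rw [Finset.sum_add_distrib, Finset.sum_ite_mem, Finset.univ_inter, Finset.sum_const,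
      Finset.sum_const, nsmul_eq_mul, nsmul_eq_mul, hcardΩ] at hup
    have h7 : (B.card : ℝ) * D ≤ c0 / 4 * T * D := mul_le_mul_of_nonneg_right hB hDpos.le
    have h8 : 0 < c0 * T * D := by positivity
    nlinarith
  obtain ⟨σ, hσ1, hσ2⟩ := hex
  refine ⟨PAA_A X idx σ, (Finset.range D).filter fun j => gd j σ, Finset.filter_subset _ _, ?_, ?_,
    PAA_half X idx g h1 h2 h3 σ, ?_⟩
  · refine le_trans ?_ hσ2
    have : c0 / 2 * ((N:ℝ) / 2) ≤ c0 / 2 * D := mul_le_mul_of_nonneg_left hD1 (by positivity)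
    linarith
  · intro v
    have h4 := PAA_dev X idx g h1 h2 h3 G v σ (a v) rfl
    have h5 : |∑ i, (if σ i then a v i else - a v i)| ≤ η * N / 2 := by
      by_contra hcon
      rw [not_le] at hcon
      exact hσ1 (Finset.mem_biUnion.2 ⟨v, Finset.mem_univ _,
        Finset.mem_filter.2 ⟨Finset.mem_univ _, hcon⟩⟩)
    linarith
  · intro j hj
    exact (Finset.mem_filter.1 hj).2

end

end Pool.Agent.OF
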